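import Pool.Agent.TH783.CE.Slice
import Pool.Agent.Results.MP_a59382_lc.CubicEquations

/-!
# The pole relation is not defined by families of varieties with finitely many R-classes

Let `K` be a number field and let `Q` be a rich set of rational primes, for example the primes
`p = 1 mod 4`. Two points of a set `S ⊆ Kⁿ` are *joined* in `S` if they are the values at `0` and
`1` of a rational curve `t ↦ (p₁(t)/q(t), …, p_n(t)/q(t))` over `K` which is in `S` for all but
finitely many `t`; `R`-equivalence in `S` is the equivalence relation generated by this (for the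
set `S` of the `K`-points of a variety this is the `R`-equivalence of Manin).

(1) If no first coordinate `a = x₀` of a point `x` of `S` has a pole above `Q`, then points which
are `R`-equivalent in `S` have the same first coordinate. So if there are only finitely many
`R`-classes, then there are only finitely many first coordinates.

(2) Consider relations between `a, b ∈ K` of the two kinds
* `∃ z, f(a, b, z) = 0`, where `f` has degree at most three in `(a, z)` (see `CubicEquations`);
* `∃ z, (a, z) ∈ S_b`, where `S_b ⊆ K^{n+1}` is an arbitrary set depending on `b`.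
If a finite union of such relations is the relation `R_K` of the problem, then for *every* `b` in
`K` without pole above a prime `p = 1 mod 4` one of the sets `S_b` has infinitely many
`R`-classes. In particular an existential definition `∃ z, (a, b, z) ∈ V` of `R_K` must be
such that all the sets `V_b(K)` have infinitely many `R`-classes.

(3) There are only finitely many `R`-classes if `S` is a finite union of orbits of a group of
matrices which is generated by matrices joined to `1` in the stabilizer of `S` (groups of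
`K`-points of rational linear algebraic groups). So the sets `S_b` cannot be homogeneous spaces of
such groups, for instance `{A : det A = c(b)}` or affine quadrics, or finite unions of them.

Proof. The set of elements of `K` without pole above `Q` is flat: a rational function in
one variable over `K` with all values in it is constant (library `TH783/CE`).
-/

set_option autoImplicit false

namespace Pool.Agent.Results.MP_a59382_lc.FinitelyManyRClasses

open Pool.Agent.TH766.HP Pool.Agent.TH783.CE
open Pool.Agent.Results.MP_a59382_lc.CubicEquations (PoleRel)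

variable {K : Type} [Field K]

/-- `x` and `y` are the values at `0` and `1` of a rational curve which is in `S` for all but
finitely many parameters. -/
def Joined {n : ℕ} (S : Set (Fin n → K)) (x y : Fin n → K) : Prop :=
  ∃ (p : Fin n → Polynomial K) (q : Polynomial K), q.eval 0 ≠ 0 ∧ q.eval 1 ≠ 0 ∧
    (∀ i, x i = (p i).eval 0 / q.eval 0) ∧ (∀ i, y i = (p i).eval 1 / q.eval 1) ∧
    {t : K | q.eval t ≠ 0 ∧ (fun i => (p i).eval t / q.eval t) ∉ S}.Finite

/-- `R`-equivalence of points of `S`. -/
def REquiv {n : ℕ} (S : Set (Fin n → K)) (x y : Fin n → K) : Prop :=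
  Relation.EqvGen (fun x y => x ∈ S ∧ y ∈ S ∧ Joined S x y) x y

/-- `S` is a finite union of `R`-classes. -/
def FiniteR {n : ℕ} (S : Set (Fin n → K)) : Prop :=
  ∃ T : Set (Fin n → K), T.Finite ∧ ∀ x ∈ S, ∃ τ ∈ T, REquiv S τ x

/-- The matrix `g` is the value at `1` of a rational curve `t ↦ M(t) / d(t)` of matrices, with the
value `1` at `0`, which map `S` to `S` for all but finitely many `t`. -/
def JoinedToOne {n : ℕ} (S : Set (Fin n → K)) (g : (Matrix (Fin n) (Fin n) K)ˣ) : Prop :=
  ∃ (M : Matrix (Fin n) (Fin n) (Polynomial K)) (d : Polynomial K),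
    d.eval 0 ≠ 0 ∧ d.eval 1 ≠ 0 ∧
    (∀ i j, (M i j).eval 0 = d.eval 0 * (1 : Matrix (Fin n) (Fin n) K) i j) ∧
    (∀ i j, (M i j).eval 1 = d.eval 1 * (g : Matrix (Fin n) (Fin n) K) i j) ∧
    {t : K | d.eval t ≠ 0 ∧ ¬ ∀ x ∈ S, (fun i => (∑ j, (M i j).eval t * x j) / d.eval t) ∈ S}.Finite

theorem joined_eq [CharZero K] {O : Set K} (hO : Flat O) {n : ℕ} {S : Set (Fin (n + 1) → K)}
    (hS : ∀ x ∈ S, x 0 ∈ O) {x y : Fin (n + 1) → K} (h : Joined S x y) : x 0 = y 0 := by
  classical
  obtain ⟨p, q, hq0, hq1, hx, hy, hfin⟩ := h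
  let D : Polynomial K := ∏ t ∈ hfin.toFinset, (Polynomial.X - Polynomial.C t)
  have hD : D ≠ 0 := Finset.prod_ne_zero_iff.2 fun t _ => Polynomial.X_sub_C_ne_zero t
  have hq : q ≠ 0 := by
    rintro rfl
    simp at hq0
  obtain ⟨c, hc⟩ := hO (q * D) (p 0 * D) (mul_ne_zero hq hD) (by
    intro s hs
    rw [Polynomial.eval_mul] at hs
    have hqs : q.eval s ≠ 0 := left_ne_zero_of_mul hs
    have hDs : D.eval s ≠ 0 := right_ne_zero_of_mul hs
    have hsS : (fun i => (p i).eval s / q.eval s) ∈ S := by
      by_contra hcon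
      refine hDs ?_
      simp only [D, Polynomial.eval_prod]
      exact Finset.prod_eq_zero (hfin.mem_toFinset.2 ⟨hqs, hcon⟩) (by simp)
    have h1 := hS _ hsS
    rw [Polynomial.eval_mul, Polynomial.eval_mul, mul_div_mul_right _ _ hDs]
    exact h1)
  have hc' : p 0 = Polynomial.C c * q := by
    have h1 : p 0 * D = Polynomial.C c * q * D := by rw [hc]; ring
    exact mul_right_cancel₀ hD h1
  rw [hx, hy, hc', Polynomial.eval_mul, Polynomial.eval_mul, Polynomial.eval_C,
    Polynomial.eval_C, mul_div_assoc, mul_div_assoc, div_self hq0, div_self hq1]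

theorem requiv_eq [CharZero K] {O : Set K} (hO : Flat O) {n : ℕ} {S : Set (Fin (n + 1) → K)}
    (hS : ∀ x ∈ S, x 0 ∈ O) {x y : Fin (n + 1) → K} (h : REquiv S x y) : x 0 = y 0 := by
  induction h with
  | rel x y h => exact joined_eq hO hS h.2.2
  | refl x => rfl
  | symm x y _ ih => exact ih.symm
  | trans x y z _ _ ih1 ih2 => exact ih1.trans ih2

theorem finite_values [CharZero K] {O : Set K} (hO : Flat O) {n : ℕ}
    {S : Set (Fin (n + 1) → K)} (hS : ∀ x ∈ S, x 0 ∈ O) (hR : FiniteR S) :
    {a : K | ∃ x ∈ S, x 0 = a}.Finite := by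
  obtain ⟨T, hT, hST⟩ := hR
  refine (hT.image fun τ => τ 0).subset ?_
  rintro _ ⟨x, hx, rfl⟩
  obtain ⟨τ, hτ, h⟩ := hST x hx
  exact ⟨τ, hτ, requiv_eq hO hS h⟩

theorem finiteR_orbits {n : ℕ} {S T : Set (Fin n → K)} (hT : T.Finite)
    {𝒢 : Set (Matrix (Fin n) (Fin n) K)ˣ} (h𝒢 : ∀ g ∈ 𝒢, JoinedToOne S g)
    (hS : S = {x | ∃ τ ∈ T, ∃ γ ∈ Subgroup.closure 𝒢,
      x = (γ : Matrix (Fin n) (Fin n) K).mulVec τ}) : FiniteR S := by
  have hinv : ∀ γ ∈ Subgroup.closure 𝒢, ∀ x ∈ S,
      (γ : Matrix (Fin n) (Fin n) K).mulVec x ∈ S := by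
    intro γ hγ x hx
    rw [hS] at hx ⊢
    obtain ⟨τ, hτ, γ', hγ', rfl⟩ := hx
    exact ⟨τ, hτ, γ * γ', mul_mem hγ hγ', by rw [Matrix.mulVec_mulVec, Units.val_mul]⟩
  have hjoin : ∀ γ ∈ Subgroup.closure 𝒢, ∀ x ∈ S,
      REquiv S x ((γ : Matrix (Fin n) (Fin n) K).mulVec x) := by
    intro γ hγ
    induction hγ using Subgroup.closure_induction with
    | mem g hg =>
      intro x hx
      obtain ⟨M, d, hd0, hd1, hM0, hM1, hfin⟩ := h𝒢 g hg
      refine Relation.EqvGen.rel _ _ ⟨hx, hinv g (Subgroup.subset_closure hg) x hx,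
        fun i => ∑ j, M i j * Polynomial.C (x j), d, hd0, hd1, fun i => ?_, fun i => ?_, ?_⟩
      · rw [Polynomial.eval_finsetSum, eq_div_iff hd0]
        have h1 : ∀ j, (M i j * Polynomial.C (x j)).eval 0 =
            d.eval 0 * ((1 : Matrix (Fin n) (Fin n) K) i j * x j) := by
          intro j
          rw [Polynomial.eval_mul, Polynomial.eval_C, hM0]
          ring
        simp only [h1]
        rw [← Finset.mul_sum, mul_comm]
        congr 1
        have h2 := congrFun (Matrix.one_mulVec x) i
        exact h2.symm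
      · rw [Polynomial.eval_finsetSum, eq_div_iff hd1]
        have h1 : ∀ j, (M i j * Polynomial.C (x j)).eval 1 =
            d.eval 1 * ((g : Matrix (Fin n) (Fin n) K) i j * x j) := by
          intro j
          rw [Polynomial.eval_mul, Polynomial.eval_C, hM1]
          ring
        simp only [h1]
        rw [← Finset.mul_sum, mul_comm]
        rfl
      · refine hfin.subset ?_
        rintro t ⟨ht, hnot⟩
        refine ⟨ht, fun hcon => hnot ?_⟩
        have h1 := hcon x hx
        convert h1 using 3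
        rw [Polynomial.eval_finsetSum]
        simp
    | one =>
      intro x _
      rw [Units.val_one, Matrix.one_mulVec]
      exact Relation.EqvGen.refl _
    | mul a b ha hb iha ihb =>
      intro x hx
      rw [Units.val_mul, ← Matrix.mulVec_mulVec]
      exact (ihb x hx).trans _ _ _ (iha _ (hinv b hb x hx))
    | inv a ha iha =>
      intro x hx
      have h1 := iha _ (hinv a⁻¹ (inv_mem ha) x hx)
      rw [Matrix.mulVec_mulVec, ← Units.val_mul, mul_inv_cancel, Units.val_one,
        Matrix.one_mulVec] at h1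
      exact h1.symm _ _
  have hTS : ∀ τ ∈ T, τ ∈ S := by
    intro τ hτ
    rw [hS]
    exact ⟨τ, hτ, 1, one_mem _, by rw [Units.val_one, Matrix.one_mulVec]⟩
  refine ⟨T, hT, fun x hx => ?_⟩
  have hx' := hx
  rw [hS] at hx'
  obtain ⟨τ, hτ, γ, hγ, rfl⟩ := hx'
  exact ⟨τ, hτ, hjoin γ hγ τ (hTS τ hτ)⟩

theorem result :
    -- (1) a function without poles above a rich set is constant on the `R`-classes
    (∀ (K : Type) [Field K] [NumberField K] (Q : Set ℕ), Rich Q →
      ∀ (n : ℕ) (S : Set (Fin (n + 1) → K)), (∀ x ∈ S, x 0 ∈ NoPole K Q) →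
        (∀ x y, REquiv S x y → x 0 = y 0) ∧ (FiniteR S → {a : K | ∃ x ∈ S, x 0 = a}.Finite)) ∧
    -- (2) definitions of the pole relation involve infinitely many `R`-classes
    (∀ (K : Type) [Field K] [NumberField K] (k : ℕ) (n : Fin k → ℕ)
      (f : ∀ i, MvPolynomial (Fin 2 ⊕ Fin (n i)) K),
      (∀ i, ∀ m ∈ (f i).support, m (Sum.inl 0) + ∑ j, m (Sum.inr j) ≤ 3) →
      ∀ (l : ℕ) (r : Fin l → ℕ) (S : ∀ i, K → Set (Fin (r i + 1) → K)),
      (∀ a b : K, ((∃ i, ∃ z : Fin (n i) → K,
          MvPolynomial.eval (Sum.elim ![a, b] z) (f i) = 0) ∨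
        ∃ i, ∃ x ∈ S i b, x 0 = a) ↔ PoleRel K {p | p % 4 = 1} a b) →
      ∀ b ∈ NoPole K {p | p % 4 = 1}, ∃ i, ¬ FiniteR (S i b)) ∧
    -- (3) orbits of groups generated by matrices joined to `1`
    (∀ (K : Type) [Field K] (n : ℕ) (S T : Set (Fin n → K)), T.Finite →
      ∀ 𝒢 : Set (Matrix (Fin n) (Fin n) K)ˣ, (∀ g ∈ 𝒢, JoinedToOne S g) →
      S = {x | ∃ τ ∈ T, ∃ γ ∈ Subgroup.closure 𝒢, x = (γ : Matrix (Fin n) (Fin n) K).mulVec τ} →
      FiniteR S) := by
  refine ⟨fun K _ _ Q hQ n S hS => ⟨fun x y h => requiv_eq (flat_noPole hQ) hS h,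
    fun hR => finite_values (flat_noPole hQ) hS hR⟩, ?_,
    fun K _ n S T hT 𝒢 h𝒢 hS => finiteR_orbits hT h𝒢 hS⟩
  intro K _ _ k n f hf l r S hiff b hb
  by_contra hcon
  push Not at hcon
  have hno : ∀ a : K, PoleRel K {p | p % 4 = 1} a b → a ∈ NoPole K {p | p % 4 = 1} := by
    intro a ha v hv
    by_contra hcon
    exact absurd (ha v hv (not_le.1 hcon)) (not_lt.2 (hb v hv))
  have h1 := thin_union (flat_noPole (K := K) four) b f hf
    (fun a ha => hno a ((hiff a b).1 (Or.inl ha)))
  have h2 : Thin (⋃ i, {a : K | ∃ x ∈ S i b, x 0 = a}) := by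
    refine Thin.of_finite (Set.finite_iUnion fun i => ?_)
    exact finite_values (flat_noPole (K := K) four)
      (fun x hx => hno _ ((hiff _ b).1 (Or.inr ⟨i, x, hx, rfl⟩))) (hcon i)
  obtain ⟨m, -, hm⟩ := (h1.union h2).exists_int 0
  refine hm ?_
  have hpole : PoleRel K {p | p % 4 = 1} (m : K) b := by
    intro v _ hv'
    exfalso
    have h3 : v.valuation K ((m : NumberField.RingOfIntegers K) : K) ≤ 1 :=
      v.valuation_le_one (K := K) (m : NumberField.RingOfIntegers K)
    have h4 : ((m : NumberField.RingOfIntegers K) : K) = (m : K) := by simp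
    rw [h4] at h3
    exact absurd hv' (not_lt.2 h3)
  rcases (hiff _ b).2 hpole with h | ⟨i, h⟩
  · exact Or.inl h
  · exact Or.inr (Set.mem_iUnion.2 ⟨i, h⟩)

end Pool.Agent.Results.MP_a59382_lc.FinitelyManyRClasses
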