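import Pool.Agent.Q312.PR.Gen
import Pool.Agent.Results.MP_a59382_lc.FinitelyManyRClasses

/-!
# Definitions of the pole relation need large components with irreducible fibres

Let `K` be a number field and let `Q` be a rich set of rational primes, for example the primes
`p = 1 mod 4`. Let `b ∈ K` be without pole above `Q` (for example `b = 0`), and let an existential
definition of the pole relation be given, for this `b`: a finite disjunction of relations
`∃ z, g(a, b, z) = 0 for all g ∈ E and h(a, b, z) ≠ 0` which holds if and only if `a` has no pole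
above `Q`. Here `E` is an arbitrary set of polynomials.

Then for one of these relations the set `S` of the pairs `(a, z)` with `g(a, b, z) = 0` for all
`g ∈ E` and `h(a, b, z) ≠ 0` contains, up to a proper closed subset, all `K`-points of an
irreducible closed set `W`, defined over `K`, with the following properties: the points of `S` in `W`
are dense in `W` and their first coordinates do not form a thin set; `a` is not constant on `W` and
the field `K(a)` is algebraically closed in the function field `K(W)` (so the generic fibre of `W`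
over the `a`-line is geometrically irreducible); and `K(W)` is not algebraic over `K(a)`, so the
fibres have positive dimension.

The same holds if one adds to the disjunction the relations excluded by the results `CubicEquations`
and `FinitelyManyRClasses` (equations of degree at most three in `(a, z)`, and sets with finitely
many `R`-classes).

In particular definitions of the pole relation have no algebraic witnesses: it is impossible that
all `z` are algebraic functions of `a`. And the pole relation cannot be defined by an existential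
formula with one quantifier, for polynomials of arbitrary degree.

Proof. Among the closed sets `W` such that the first coordinates of the points of `S` in `W`
do not form a thin set we take a minimal one. If `K(a)` was not algebraically closed in `K(W)`,
there would be a monic polynomial over `K[a]`, without zeros in `K[a]`, which has a zero at almost
every point. If `K(W) = K(a)`, then `W` is a rational curve on which `a` is not constant, and this
contradicts the fact that the set of elements without pole above `Q` is flat.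
-/

set_option autoImplicit false
set_option linter.unusedSectionVars false

namespace Pool.Agent.Results.MP_a59382_lc.GeometricComponents

open Polynomial Pool.Agent.TH766.HP Pool.Agent.TH783.CE Pool.Agent.Q312.PR
open Pool.Agent.Results.MP_a59382_lc.CubicEquations
open Pool.Agent.Results.MP_a59382_lc.FinitelyManyRClasses

variable {K : Type} [Field K]

/-- The relation `g(a, b, z) = 0` for all `g ∈ E` and `h(a, b, z) ≠ 0`. -/
def Holds {n : ℕ} (E : Set (MvPolynomial (Fin 2 ⊕ Fin n) K)) (h : MvPolynomial (Fin 2 ⊕ Fin n) K)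
    (a b : K) (z : Fin n → K) : Prop :=
  (∀ g ∈ E, MvPolynomial.eval (Sum.elim ![a, b] z) g = 0) ∧
    MvPolynomial.eval (Sum.elim ![a, b] z) h ≠ 0

/-- The set of all `(a, z)` such that `Holds E h a b z`. -/
def solutions {n : ℕ} (E : Set (MvPolynomial (Fin 2 ⊕ Fin n) K))
    (h : MvPolynomial (Fin 2 ⊕ Fin n) K) (b : K) : Set (Fin (n + 1) → K) :=
  {x | Holds E h (x 0) b fun j => x j.succ}

/-- The value of a polynomial in the function field of the set of zeros of the ideal `P`. -/
noncomputable def value {n : ℕ} (P : Ideal (MvPolynomial (Fin (n + 1)) K))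
    (f : MvPolynomial (Fin (n + 1)) K) : FractionRing (MvPolynomial (Fin (n + 1)) K ⧸ P) :=
  algebraMap (MvPolynomial (Fin (n + 1)) K ⧸ P) _ (Ideal.Quotient.mk P f)

/-- The value of a polynomial in the first coordinate `a`, in the function field. -/
noncomputable def valueFirst {n : ℕ} (P : Ideal (MvPolynomial (Fin (n + 1)) K)) :
    K[X] →+* FractionRing (MvPolynomial (Fin (n + 1)) K ⧸ P) :=
  ((algebraMap (MvPolynomial (Fin (n + 1)) K ⧸ P) _).comp (Ideal.Quotient.mk P)).comp
    (Polynomial.aeval (MvPolynomial.X 0 : MvPolynomial (Fin (n + 1)) K)).toRingHom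

/-- There is an irreducible closed set `W` (given by the prime ideal `P`) such that: all `K`-points
of `W` outside of a proper closed subset (the zeros of `e`) belong to `S`; the points of `S` in `W`
are dense in `W`, and their first coordinates do not form a thin set; the first coordinate `a` is
transcendental; every element of the function field of `W` which is algebraic over `K(a)` belongs to
`K(a)`; and some coordinate is transcendental over `K(a)`. -/
def LargeComponent [CharZero K] {n : ℕ} (S : Set (Fin (n + 1) → K)) : Prop :=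
  ∃ (P : Ideal (MvPolynomial (Fin (n + 1)) K)) (_ : P.IsPrime),
    (∃ e, e ∉ P ∧ ∀ x, (∀ f ∈ P, MvPolynomial.eval x f = 0) → MvPolynomial.eval x e ≠ 0 →
      x ∈ S) ∧
    (∀ f, (∀ x ∈ S, (∀ g ∈ P, MvPolynomial.eval x g = 0) → MvPolynomial.eval x f = 0) →
      f ∈ P) ∧
    ¬ Thin {a : K | ∃ x ∈ S, (∀ f ∈ P, MvPolynomial.eval x f = 0) ∧ x 0 = a} ∧
    (∀ p : K[X], p ≠ 0 → valueFirst P p ≠ 0) ∧
    (∀ (α : FractionRing (MvPolynomial (Fin (n + 1)) K ⧸ P)) (G : K[X][X]), G ≠ 0 →
      G.eval₂ (valueFirst P) α = 0 →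
      ∃ p q : K[X], q ≠ 0 ∧ α = valueFirst P p / valueFirst P q) ∧
    ∃ j : Fin n, ∀ G : K[X][X], G ≠ 0 →
      G.eval₂ (valueFirst P) (value P (MvPolynomial.X j.succ)) ≠ 0

section

variable [CharZero K]

theorem large_of_flat {O : Set K} (hO : Flat O) {n : ℕ}
    (E : Set (MvPolynomial (Fin (n + 1)) K)) (e : MvPolynomial (Fin (n + 1)) K)
    (S : Set (Fin (n + 1) → K))
    (hS : S = {x | (∀ g ∈ E, MvPolynomial.eval x g = 0) ∧ MvPolynomial.eval x e ≠ 0})
    (hSO : ∀ x ∈ S, x 0 ∈ O) (h : ¬ Thin {a : K | ∃ x ∈ S, x 0 = a}) : LargeComponent S := by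
  obtain ⟨P, hP⟩ := exists_max _ h
  have hprime := hP.isPrime
  have hEP : ∀ g ∈ E, g ∈ P := fun g hg => hP.dense g fun x hx _ => by
    rw [hS] at hx
    exact hx.1 g hg
  have heP : e ∉ P := by
    intro he
    refine hP.not_thin (Thin.of_finite ?_)
    convert Set.finite_empty
    refine Set.eq_empty_of_forall_notMem ?_
    rintro a ⟨x, hx, hx', -⟩
    rw [hS] at hx
    exact hx.2 (hx' e he)
  have hsub : ∀ x, (∀ f ∈ P, MvPolynomial.eval x f = 0) → MvPolynomial.eval x e ≠ 0 →
      x ∈ S := by
    intro x hx hxe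
    rw [hS]
    exact ⟨fun g hg => hx g (hEP g hg), hxe⟩
  refine ⟨P, hprime, ⟨e, heP, hsub⟩, hP.dense, hP.not_thin,
    fun p hp => hP.up_ne hp, fun α G hG h0 => hP.eq_div α G hG h0, ?_⟩
  by_contra hcon
  push Not at hcon
  have h1 : ∀ j : Fin (n + 1), ∃ p q : K[X], q ≠ 0 ∧
      Pool.Agent.Q312.PR.emb P (MvPolynomial.X j) = up P p / up P q := by
    intro j
    refine Fin.cases ?_ (fun j => ?_) j
    · refine ⟨X, 1, one_ne_zero, ?_⟩
      rw [map_one, div_one, up_apply, Polynomial.aeval_X]
    · obtain ⟨G, hG, h0⟩ := hcon j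
      exact hP.eq_div _ G hG h0
  choose p q hq hpq using h1
  exact hP.not_rational hO heP (fun x hx hxe => hSO x (hsub x hx hxe)) p q hq hpq

theorem solutions_eq {n : ℕ} (E : Set (MvPolynomial (Fin 2 ⊕ Fin n) K))
    (h : MvPolynomial (Fin 2 ⊕ Fin n) K) (b : K) :
    solutions E h b = {x | (∀ g ∈ slice b '' E, MvPolynomial.eval x g = 0) ∧
      MvPolynomial.eval x (slice b h) ≠ 0} := by
  ext x
  have h1 : x = Fin.cons (x 0) (fun j => x j.succ) := (Fin.cons_self_tail x).symm
  have h2 : ∀ g, MvPolynomial.eval x (slice b g) =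
      MvPolynomial.eval (Sum.elim ![x 0, b] fun j => x j.succ) g := by
    intro g
    conv_lhs => rw [h1]
    exact eval_slice b g _ _
  change ((∀ g ∈ E, MvPolynomial.eval _ g = 0) ∧ MvPolynomial.eval _ h ≠ 0) ↔
    (∀ g ∈ slice b '' E, MvPolynomial.eval x g = 0) ∧ MvPolynomial.eval x (slice b h) ≠ 0
  rw [h2, Set.forall_mem_image]
  simp only [h2]

theorem exists_iff {n : ℕ} (E : Set (MvPolynomial (Fin 2 ⊕ Fin n) K))
    (h : MvPolynomial (Fin 2 ⊕ Fin n) K) (a b : K) :
    (∃ z : Fin n → K, Holds E h a b z) ↔ ∃ x ∈ solutions E h b, x 0 = a := by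
  constructor
  · rintro ⟨z, hz⟩
    exact ⟨Fin.cons a z, hz, rfl⟩
  · rintro ⟨x, hx, rfl⟩
    exact ⟨fun j => x j.succ, hx⟩

/-- large components have no algebraic witnesses -/
theorem not_algebraic {n : ℕ} {S : Set (Fin (n + 1) → K)} (h : LargeComponent S) :
    ¬ ∀ j : Fin n, ∃ G : K[X][X], G ≠ 0 ∧ ∀ x ∈ S, G.evalEval (x 0) (x j.succ) = 0 := by
  intro hcon
  obtain ⟨P, hp, -, h2, -, -, -, j, h3⟩ := h
  obtain ⟨G, hG, h4⟩ := hcon j
  apply h3 G hG
  set g : MvPolynomial (Fin (n + 1)) K := G.eval₂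
    (Polynomial.aeval (MvPolynomial.X 0 : MvPolynomial (Fin (n + 1)) K)).toRingHom
    (MvPolynomial.X j.succ) with hg
  have h5 : g ∈ P := by
    refine h2 g fun x hx _ => ?_
    have h6 := h4 x hx
    rw [hg, Polynomial.hom_eval₂, MvPolynomial.eval_X, ← h6, ← Polynomial.eval₂_evalRingHom]
    congr 1
    refine RingHom.ext fun p => ?_
    exact eval_aeval x p
  have h6 : Pool.Agent.Q312.PR.emb P g = 0 := (emb_eq_zero P g).2 h5
  rw [hg, Polynomial.hom_eval₂] at h6
  exact h6

/-- large components in the plane are dense in the plane -/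
theorem false_of_large {O : Set K} (hO : Flat O) {S : Set (Fin (1 + 1) → K)}
    (h : LargeComponent S) (hSO : ∀ x ∈ S, x 0 ∈ O) : False := by
  obtain ⟨P, hp, ⟨e, he, h1⟩, -, -, -, -, j, h3⟩ := h
  obtain rfl : j = 0 := Subsingleton.elim _ _
  let ρ : MvPolynomial (Fin (1 + 1)) K →+* K[X][X] :=
    MvPolynomial.eval₂Hom ((C : K[X] →+* K[X][X]).comp C) ![C X, X]
  have h4 : ∀ f : MvPolynomial (Fin (1 + 1)) K,
      (ρ f).eval₂ (valueFirst P) (value P (MvPolynomial.X (Fin.succ 0))) =
        Pool.Agent.Q312.PR.emb P f := by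
    intro f
    have h5 : (Polynomial.eval₂RingHom (valueFirst P)
        (value P (MvPolynomial.X (Fin.succ 0)))).comp ρ = Pool.Agent.Q312.PR.emb P := by
      refine MvPolynomial.ringHom_ext (fun c => ?_) (fun i => ?_)
      · simp only [ρ, RingHom.comp_apply, MvPolynomial.coe_eval₂Hom, MvPolynomial.eval₂_C,
          coe_eval₂RingHom, eval₂_C]
        change up P (C c) = _
        rw [up_apply, Polynomial.aeval_C]
        rfl
      · fin_cases i
        · simp only [ρ, RingHom.comp_apply, MvPolynomial.coe_eval₂Hom, MvPolynomial.eval₂_X,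
            coe_eval₂RingHom]
          simp only [Fin.zero_eta, Matrix.cons_val_zero, eval₂_C]
          change up P X = _
          rw [up_apply, Polynomial.aeval_X]
        · simp only [ρ, RingHom.comp_apply, MvPolynomial.coe_eval₂Hom, MvPolynomial.eval₂_X,
            coe_eval₂RingHom]
          change eval₂ (valueFirst P) (value P (MvPolynomial.X (Fin.succ 0))) X = _
          rw [eval₂_X]
          rfl
    exact congrArg (fun φ => φ f) h5
  have h6 : ∀ x : Fin (1 + 1) → K, (Polynomial.evalEvalRingHom (x 0) (x 1)).comp ρ =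
      MvPolynomial.eval x := by
    intro x
    refine MvPolynomial.ringHom_ext (fun c => ?_) (fun i => ?_)
    · simp [ρ]
    · fin_cases i
      · simp [ρ]
      · simp [ρ]
  have h7 : ∀ x : Fin (1 + 1) → K, ∀ f ∈ P, MvPolynomial.eval x f = 0 := by
    intro x f hf
    have h5 : ρ f = 0 := by
      by_contra hcon
      exact h3 _ hcon (by rw [h4 f]; exact (emb_eq_zero P f).2 hf)
    have h8 := congrArg (fun φ => φ f) (h6 x)
    simp only [RingHom.comp_apply, h5, map_zero] at h8
    exact h8.symm
  have h8 : ρ e ≠ 0 := by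
    intro hcon
    refine he ((emb_eq_zero P e).1 ?_)
    rw [← h4 e, hcon, eval₂_zero]
  obtain ⟨y, hy⟩ : ∃ y : K, (ρ e).eval (C y) ≠ 0 := by
    by_contra hcon
    push Not at hcon
    apply h8
    refine Polynomial.eq_zero_of_infinite_isRoot _ ?_
    refine Set.Infinite.mono (s := Set.range (C : K → K[X])) ?_
      (Set.infinite_range_of_injective C_injective)
    rintro _ ⟨y, rfl⟩
    exact hcon y
  obtain ⟨c, hc⟩ := hO ((ρ e).eval (C y)) (X * (ρ e).eval (C y)) hy (by
    intro t ht
    rw [eval_mul, eval_X, mul_div_assoc, div_self ht, mul_one]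
    refine hSO ![t, y] (h1 _ (h7 _) ?_)
    rw [← h6 ![t, y]]
    exact ht)
  exact Polynomial.X_ne_C c (mul_right_cancel₀ hy hc)

end

theorem result :
    -- (0) the primes of the problem
    Rich {p : ℕ | p % 4 = 1} ∧
    -- (1) definitions of the pole relation have large components
    (∀ (K : Type) [Field K] [NumberField K] (Q : Set ℕ), Rich Q → ∀ b ∈ NoPole K Q,
      ∀ (k : ℕ) (n : Fin k → ℕ) (f : ∀ i, MvPolynomial (Fin 2 ⊕ Fin (n i)) K),
      (∀ i, ∀ m ∈ (f i).support, m (Sum.inl 0) + ∑ j, m (Sum.inr j) ≤ 3) →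
      ∀ (l : ℕ) (r : Fin l → ℕ) (S : ∀ i, Set (Fin (r i + 1) → K)), (∀ i, FiniteR (S i)) →
      ∀ (m : ℕ) (s : Fin m → ℕ) (E : ∀ i, Set (MvPolynomial (Fin 2 ⊕ Fin (s i)) K))
        (h : ∀ i, MvPolynomial (Fin 2 ⊕ Fin (s i)) K),
      (∀ a : K, ((∃ i, ∃ z : Fin (n i) → K,
          MvPolynomial.eval (Sum.elim ![a, b] z) (f i) = 0) ∨
        (∃ i, ∃ x ∈ S i, x 0 = a) ∨ ∃ i, ∃ z : Fin (s i) → K, Holds (E i) (h i) a b z) ↔
          PoleRel K Q a b) →
      ∃ i, LargeComponent (solutions (E i) (h i) b)) ∧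
    -- (2) there are no algebraic witnesses
    (∀ (K : Type) [Field K] [CharZero K] (n : ℕ) (S : Set (Fin (n + 1) → K)), LargeComponent S →
      ¬ ∀ j : Fin n, ∃ G : K[X][X], G ≠ 0 ∧ ∀ x ∈ S, G.evalEval (x 0) (x j.succ) = 0) ∧
    -- (3) the pole relation is not defined with one quantifier
    (∀ (K : Type) [Field K] [NumberField K] (Q : Set ℕ), Rich Q → ∀ b ∈ NoPole K Q,
      ∀ (k : ℕ) (n : Fin k → ℕ) (f : ∀ i, MvPolynomial (Fin 2 ⊕ Fin (n i)) K),
      (∀ i, ∀ m ∈ (f i).support, m (Sum.inl 0) + ∑ j, m (Sum.inr j) ≤ 3) →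
      ∀ (l : ℕ) (r : Fin l → ℕ) (S : ∀ i, Set (Fin (r i + 1) → K)), (∀ i, FiniteR (S i)) →
      ∀ (m : ℕ) (E : Fin m → Set (MvPolynomial (Fin 2 ⊕ Fin 1) K))
        (h : Fin m → MvPolynomial (Fin 2 ⊕ Fin 1) K),
      ¬ ∀ a : K, ((∃ i, ∃ z : Fin (n i) → K,
          MvPolynomial.eval (Sum.elim ![a, b] z) (f i) = 0) ∨
        (∃ i, ∃ x ∈ S i, x 0 = a) ∨ ∃ i, ∃ z : Fin 1 → K, Holds (E i) (h i) a b z) ↔
          PoleRel K Q a b) := by
  have main : ∀ (K : Type) [Field K] [NumberField K] (Q : Set ℕ), Rich Q → ∀ b ∈ NoPole K Q,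
      ∀ (k : ℕ) (n : Fin k → ℕ) (f : ∀ i, MvPolynomial (Fin 2 ⊕ Fin (n i)) K),
      (∀ i, ∀ m ∈ (f i).support, m (Sum.inl 0) + ∑ j, m (Sum.inr j) ≤ 3) →
      ∀ (l : ℕ) (r : Fin l → ℕ) (S : ∀ i, Set (Fin (r i + 1) → K)), (∀ i, FiniteR (S i)) →
      ∀ (m : ℕ) (s : Fin m → ℕ) (E : ∀ i, Set (MvPolynomial (Fin 2 ⊕ Fin (s i)) K))
        (h : ∀ i, MvPolynomial (Fin 2 ⊕ Fin (s i)) K),
      (∀ a : K, ((∃ i, ∃ z : Fin (n i) → K,
          MvPolynomial.eval (Sum.elim ![a, b] z) (f i) = 0) ∨
        (∃ i, ∃ x ∈ S i, x 0 = a) ∨ ∃ i, ∃ z : Fin (s i) → K, Holds (E i) (h i) a b z) ↔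
          PoleRel K Q a b) →
      ∃ i, LargeComponent (solutions (E i) (h i) b) ∧
        ∀ x ∈ solutions (E i) (h i) b, x 0 ∈ NoPole K Q := by
    intro K _ _ Q hQ b hb k n f hf l r S hS m s E h hiff
    have hflat : Flat (NoPole K Q) := flat_noPole hQ
    have hno : ∀ a : K, PoleRel K Q a b → a ∈ NoPole K Q := by
      intro a ha v hv
      by_contra hcon
      exact absurd (ha v hv (not_le.1 hcon)) (not_lt.2 (hb v hv))
    have h1 := thin_union hflat b f hf (fun a ha => hno a ((hiff a).1 (Or.inl ha)))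
    have h2 : Thin (⋃ i, {a : K | ∃ x ∈ S i, x 0 = a}) := by
      refine Thin.of_finite (Set.finite_iUnion fun i => ?_)
      exact finite_values hflat
        (fun x hx => hno _ ((hiff _).1 (Or.inr (Or.inl ⟨i, x, hx, rfl⟩)))) (hS i)
    have hg : ∀ i, ∀ x ∈ solutions (E i) (h i) b, x 0 ∈ NoPole K Q := fun i x hx =>
      hno _ ((hiff _).1 (Or.inr (Or.inr ⟨i, (exists_iff (E i) (h i) _ b).2 ⟨x, hx, rfl⟩⟩)))
    by_contra hcon
    push Not at hcon
    have h3 : ∀ i, Thin {a : K | ∃ x ∈ solutions (E i) (h i) b, x 0 = a} := by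
      intro i
      by_contra hthin
      obtain ⟨x, hx, hx'⟩ := hcon i
        (large_of_flat hflat _ _ _ (solutions_eq (E i) (h i) b) (hg i) hthin)
      exact hx' (hg i x hx)
    have h4 : Thin (⋃ i ∈ (Set.univ : Set (Fin m)),
        {a : K | ∃ x ∈ solutions (E i) (h i) b, x 0 = a}) :=
      Thin.biUnion Set.finite_univ fun i _ => h3 i
    obtain ⟨t, -, ht⟩ := ((h1.union h2).union h4).exists_int 0
    refine ht ?_
    have hpole : PoleRel K Q (t : K) b := by
      intro v _ hv'
      exfalso
      have h5 : v.valuation K ((t : NumberField.RingOfIntegers K) : K) ≤ 1 :=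
        v.valuation_le_one (K := K) (t : NumberField.RingOfIntegers K)
      have h6 : ((t : NumberField.RingOfIntegers K) : K) = (t : K) := by simp
      rw [h6] at h5
      exact absurd hv' (not_lt.2 h5)
    rcases (hiff _).2 hpole with h | ⟨i, h⟩ | ⟨i, h⟩
    · exact Or.inl (Or.inl h)
    · exact Or.inl (Or.inr (Set.mem_iUnion.2 ⟨i, h⟩))
    · refine Or.inr (Set.mem_biUnion (Set.mem_univ i) ?_)
      exact (exists_iff _ _ _ b).1 h
  refine ⟨four, fun K _ _ Q hQ b hb k n f hf l r S hS m s E h hiff => ?_,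
    fun K _ _ n S hS => not_algebraic hS, ?_⟩
  · obtain ⟨i, hi, -⟩ := main K Q hQ b hb k n f hf l r S hS m s E h hiff
    exact ⟨i, hi⟩
  · intro K _ _ Q hQ b hb k n f hf l r S hS m E h hiff
    obtain ⟨i, hi, hi'⟩ := main K Q hQ b hb k n f hf l r S hS m (fun _ => 1) E h hiff
    exact false_of_large (flat_noPole (K := K) hQ) hi hi'

end Pool.Agent.Results.MP_a59382_lc.GeometricComponents
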