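import Pool.Agent.Q57.MF.Fam
import Pool.Agent.Results.MP_a59382_lc.CubicEquations

/-!
# Definitions of the pole relation need components without multiple fibres

Let `K` be a number field, let `Q` be a rich set of rational primes, for example the primes
`p = 1 mod 4`, and let `b ∈ K` be without poles above `Q` (for example `b = 0`). Suppose that for
this `b` the pole relation `R(a, b)` is equivalent to a finite disjunction of relations of three kinds:

* `∃ z, f(a, b, z) = 0`, where `f` has degree at most three in `(a, z)` (see `CubicEquations`);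
* relations which imply that a family with a multiple fibre has a `K`-point over `a`: there are
  `y ≠ 0` in `K ^ (N + 1)` with `H i (a, y) ^ d = g (a) G i (a, y)`, `i < s`, where `d ≥ 2`, `g` is a
  squarefree nonconstant polynomial over `K`, and `H i`, `G i` are forms in `y` over `K[a]` of degrees
  `m i` and `d * m i` such that `g`, the `G i` and the `H i` have no common zero (for example the
  families `z i ^ d = g (a) G i (y)` with forms `G i` of degree `d` without common zero, of any
  dimension);
* the relations that `a` is the first coordinate of a point of `S`, where the sets `S ⊆ K ^ (n + 1)` are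
  arbitrary.

Then there is a relation of the third kind and an irreducible closed set `W` such that the points of
`S` in `W` with integral first coordinate `a` are dense in `W`, the set of these `a` is not
thin, and `W → 𝔸¹` HAS NO MULTIPLE FIBRES: for no closed point `g = 0` of the `a`-line (and no
squarefree `g`) and no `d ≥ 2` the function `g (a)` is, near its zeros, locally a unit times the `d`-th
power of a regular function, neither on a projective completion of `W` over the `a`-line nor on
any projective family dominated by `W`. In particular (no relations of the third kind) the relation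
`R` cannot be defined by relations of the first two kinds.

So every existential definition of the pole relation must contain, for every such `b`, a component
of this kind.

Proof. The minimal closed set `W` such that the set of the integral first coordinates of the points of
`S` in `W` is not thin is irreducible (as in the file `GeometricComponents`). If `W` had a multiple
fibre over the zeros of `g`, then for almost all places `v` the valuation of `g (a)` would be divisible
by `d` for all points of `W` off a proper closed subset with `v`-integral `a`: the point, with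
coordinates `y` normalised at `v`, reduces to a point of one of the open sets `F i ≠ 0` if
`v (g (a)) > 0`. By the finiteness of the class number and the theorem of Dirichlet on units
`g (a) = u t ^ d` with `u` in a finite set, and this defines a thin set.
-/

set_option autoImplicit false

namespace Pool.Agent.Results.MP_a59382_lc.MultipleFibres

open Polynomial Pool.Agent.TH766.HP Pool.Agent.TH783.CE Pool.Agent.Q57.MF
open Pool.Agent.Results.MP_a59382_lc.CubicEquations

/-- `A` is contained in the set of all `a` such that there are `y ≠ 0` with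
`H i (a, y) ^ d = g (a) G i (a, y)` for all `i`: here `d ≥ 2`, `g` is squarefree and not constant, the
forms `G i` and `H i` in `y` over `K[a]` have the degrees `m i * d` and `m i`, and powers of all
variables are in the ideal generated by `g`, the `G i` and the `H i ^ d`. -/
def InMultipleFamily (K : Type) [Field K] (A : Set K) : Prop :=
  ∃ (N s d : ℕ) (g : K[X]) (G H : Fin s → MvPolynomial (Fin (N + 1)) K[X]) (m : Fin s → ℕ),
    2 ≤ d ∧ Squarefree g ∧ 0 < g.natDegree ∧
    (∀ i, (G i).IsHomogeneous (m i * d)) ∧ (∀ i, (H i).IsHomogeneous (m i)) ∧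
    (∀ j, ∃ M, MvPolynomial.X j ^ M ∈ Ideal.span {MvPolynomial.C g} ⊔
      Ideal.span (Set.range G) ⊔ Ideal.span (Set.range fun i => H i ^ d)) ∧
    ∀ a ∈ A, ∃ y : Fin (N + 1) → K, y ≠ 0 ∧ ∀ i, ev a y (H i) ^ d = g.eval a * ev a y (G i)

/-- There is an irreducible closed set `W`, the zeros of the prime ideal `P`, such that:
* if `S` is the set of the zeros of `E` which are not zeros of `e`, then all elements of `E` and not
  `e` belong to `P` (so all `K`-points of `W` with `e ≠ 0` belong to `S`);
* the points of `S` in `W` with integral first coordinate are dense in `W`, and their first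
  coordinates do not form a thin set;
* `W` has no multiple fibres over the line of the first coordinate. -/
def GoodComponent {K : Type} [Field K] [NumberField K] {n : ℕ} (S : Set (Fin (n + 1) → K)) : Prop :=
  ∃ (P : Ideal (MvPolynomial (Fin (n + 1)) K)) (_ : P.IsPrime),
    (∀ (E : Set (MvPolynomial (Fin (n + 1)) K)) (e : MvPolynomial (Fin (n + 1)) K),
      S = {x | (∀ f ∈ E, MvPolynomial.eval x f = 0) ∧ MvPolynomial.eval x e ≠ 0} →
        (∀ f ∈ E, f ∈ P) ∧ e ∉ P) ∧
    (∀ f, (∀ x ∈ S, (∃ r : NumberField.RingOfIntegers K, (r : K) = x 0) →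
      (∀ g ∈ P, MvPolynomial.eval x g = 0) → MvPolynomial.eval x f = 0) → f ∈ P) ∧
    ¬ Thin {a : K | ∃ x ∈ S, (∃ r : NumberField.RingOfIntegers K, (r : K) = x 0) ∧
      (∀ f ∈ P, MvPolynomial.eval x f = 0) ∧ x 0 = a} ∧
    ∀ (g : K[X]) (d : ℕ), Squarefree g → 0 < g.natDegree → 2 ≤ d → ¬ MultipleFibre P g d

theorem good_of_max {K : Type} [Field K] [NumberField K] {n : ℕ} {S : Set (Fin (n + 1) → K)}
    {P : Ideal (MvPolynomial (Fin (n + 1)) K)}
    (hP : Pool.Agent.Q312.PR.Max
      {x | x ∈ S ∧ ∃ r : NumberField.RingOfIntegers K, (r : K) = x 0} P) : GoodComponent S := by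
  refine ⟨P, hP.isPrime, ?_, ?_, ?_, fun g d hg hg' hd => no_multiple hP hg hg' hd⟩
  · intro E e hS
    refine ⟨fun f hf => hP.dense f fun x hx _ => ?_, fun he => hP.not_thin (Thin.of_finite ?_)⟩
    · have h1 := hx.1
      rw [hS] at h1
      exact h1.1 f hf
    · convert Set.finite_empty
      refine Set.eq_empty_of_forall_notMem ?_
      rintro a ⟨x, ⟨hx, -⟩, hx', -⟩
      rw [hS] at hx
      exact hx.2 (hx' e he)
  · exact fun f hf => hP.dense f fun x hx hx' => hf x hx.1 hx.2 hx'
  · intro hcon
    refine hP.not_thin (hcon.mono ?_)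
    rintro a ⟨x, hx, hx', rfl⟩
    exact ⟨x, hx.1, hx.2, hx', rfl⟩

theorem result :
    -- the primes of the problem
    Rich {p : ℕ | p % 4 = 1} ∧
    -- definitions of the pole relation have components without multiple fibres
    ∀ (K : Type) [Field K] [NumberField K] (Q : Set ℕ), Rich Q → ∀ b ∈ NoPole K Q,
      ∀ (k : ℕ) (n : Fin k → ℕ) (f : ∀ i, MvPolynomial (Fin 2 ⊕ Fin (n i)) K),
      (∀ i, ∀ m ∈ (f i).support, m (Sum.inl 0) + ∑ j, m (Sum.inr j) ≤ 3) →
      ∀ (l : ℕ) (A : Fin l → Set K), (∀ i, InMultipleFamily K (A i)) →
      ∀ (m : ℕ) (s : Fin m → ℕ) (S : ∀ i, Set (Fin (s i + 1) → K)),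
      (∀ a : K, ((∃ i, ∃ z : Fin (n i) → K,
          MvPolynomial.eval (Sum.elim ![a, b] z) (f i) = 0) ∨
        (∃ i, a ∈ A i) ∨ ∃ i, ∃ x ∈ S i, x 0 = a) ↔ PoleRel K Q a b) →
      ∃ i, GoodComponent (S i) := by
  refine ⟨four, ?_⟩
  intro K _ _ Q hQ b hb k n f hf l A hA m s S hiff
  have hflat : Flat (NoPole K Q) := flat_noPole hQ
  have hno : ∀ a : K, PoleRel K Q a b → a ∈ NoPole K Q := by
    intro a ha v hv
    by_contra hcon
    exact absurd (ha v hv (not_le.1 hcon)) (not_lt.2 (hb v hv))
  have h1 := thin_union hflat b f hf (fun a ha => hno a ((hiff a).1 (Or.inl ha)))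
  have h2 : Thin (⋃ i ∈ (Set.univ : Set (Fin l)),
      {a : K | (∃ r : NumberField.RingOfIntegers K, (r : K) = a) ∧ a ∈ A i}) := by
    refine Thin.biUnion Set.finite_univ fun i _ => ?_
    obtain ⟨N, s, d, g, G, H, m, hd, hg, hg', hG, hH, hM, hA'⟩ := hA i
    refine (thin_family hg hg' hd G H m hG hH hM).mono ?_
    rintro a ⟨hr, ha⟩
    exact ⟨hr, hA' a ha⟩
  by_contra hcon
  push Not at hcon
  have h3 : ∀ i, Thin {a : K | ∃ x ∈ {x | x ∈ S i ∧
      ∃ r : NumberField.RingOfIntegers K, (r : K) = x 0}, x 0 = a} := by
    intro i
    by_contra hthin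
    obtain ⟨P, hP⟩ := Pool.Agent.Q312.PR.exists_max _ hthin
    exact hcon i (good_of_max hP)
  have h4 : Thin (⋃ i ∈ (Set.univ : Set (Fin m)), {a : K | ∃ x ∈ {x | x ∈ S i ∧
      ∃ r : NumberField.RingOfIntegers K, (r : K) = x 0}, x 0 = a}) :=
    Thin.biUnion Set.finite_univ fun i _ => h3 i
  obtain ⟨t, -, ht⟩ := ((h1.union h2).union h4).exists_int 0
  refine ht ?_
  have hint : ((t : NumberField.RingOfIntegers K) : K) = (t : K) := by simp
  have hpole : PoleRel K Q (t : K) b := by
    intro v _ hv'
    exfalso
    have h5 : v.valuation K ((t : NumberField.RingOfIntegers K) : K) ≤ 1 :=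
      v.valuation_le_one (K := K) (t : NumberField.RingOfIntegers K)
    rw [hint] at h5
    exact absurd hv' (not_lt.2 h5)
  rcases (hiff _).2 hpole with h | ⟨i, h⟩ | ⟨i, x, hx, hx0⟩
  · exact Or.inl (Or.inl h)
  · refine Or.inl (Or.inr (Set.mem_biUnion (Set.mem_univ i) ?_))
    exact ⟨⟨(t : NumberField.RingOfIntegers K), hint⟩, h⟩
  · refine Or.inr (Set.mem_biUnion (Set.mem_univ i) ?_)
    exact ⟨x, ⟨hx, ⟨(t : NumberField.RingOfIntegers K), by rw [hx0]; exact hint⟩⟩, hx0⟩

end Pool.Agent.Results.MP_a59382_lc.MultipleFibres
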