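import Pool.Agent.Q57.MF.Conic
import Pool.Agent.Results.MP_a59382_lc.CubicEquations

/-!
# Definitions of the pole relation need components with pseudo-split fibres

Let `K` be a number field, `Q` a set of primes and `b ∈ K`. Suppose that for this `b` the pole relation
`R(a, b)` holds if and only if `a` belongs to one of finitely many sets `A i` over which a family with
a fibre which is not pseudo-split has points (see below), or `a` is the first coordinate of a point of
one of finitely many sets `S i ⊆ K ^ (n i + 1)`. For an existential definition `∃ z, ψ(a, b, z)` of the
pole relation the `S i` are locally closed sets, but here they are arbitrary. Then for one of these sets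
`S` there is an irreducible closed set `W` such that

* the points of `S` in `W` whose first coordinate is a natural number are dense in `W`, and these
  first coordinates have positive upper density in `ℕ`;
* ALL FIBRES OF `W` OVER THE CLOSED POINTS `g = 0` OF THE AFFINE LINE OF THE FIRST COORDINATE `a` ARE
  PSEUDO-SPLIT in the following sense, both on a projective completion of `W` over the `a`-line and on
  every projective family dominated by `W`.

A fibre is not pseudo-split (`NonPseudoSplitFibre`) if there is a set of primes `p` with divergent
`∑ 1 / p` with simple zeros `z` of `g` modulo these primes such that the fibre over `z` has no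
rational points except points at which `g (a)` is in the square of the maximal ideal (for example
the points of components of multiplicity at least two, and the singular points of the fibre if
the total space is regular). In the definition this is expressed by equations: on an open cover of the
smooth part of the fibre there are regular functions which are zeros of polynomials `ψ i (a, Y)`
such that `ψ i (z, Y)` has no zero modulo `p`, and the rest of the fibre is divided into finitely many
locally closed parts such that `g (a)` is at the points of each of them a sum of products of functions
which vanish on it. For example the fibre over `g = 0` of the conic bundle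
`x ^ 2 - m (a) y ^ 2 = g (a) z ^ 2` is of this kind if `m` is not a square in the field `K[a] / (g)`; this
is proved below for the rational points over `K = ℚ`.

So the pole relation cannot be defined by conic bundles, norm forms or other families which have
a fibre over the affine line which is not pseudo-split: every existential definition must contain a
family with a component `W` of the kind above.

Proof. `W` is a minimal closed set such that the natural numbers which are first coordinates of points
of `S` in `W` do not have density zero. Suppose that the fibre over `g = 0` is not pseudo-split. If `a`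
is congruent to `z` modulo the prime and the valuation of `g (a)` is one then the point `(a, y)`, with
coordinates normalised, reduces to a point of the fibre over `z`. If it is on one of the open sets
then `ψ i (z, Y)` has a zero modulo the prime, a contradiction, and otherwise the valuation of `g (a)`
is at least two, a contradiction. So for almost all of these primes `p` the numbers `a` avoid `p - 1`
residue classes modulo `p ^ 2`, and they have density zero.
-/

set_option autoImplicit false

namespace Pool.Agent.Results.MP_a59382_lc.NonSplitFibres

open Polynomial Pool.Agent.Q57.MF
open Pool.Agent.Results.MP_a59382_lc.CubicEquations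

/-- There is an irreducible closed set `W`, the zeros of the prime ideal `P`, such that:
* if `S` is the set of the zeros of `E` which are not zeros of `e`, then all elements of `E` and not
  `e` belong to `P` (so all `K`-points of `W` with `e ≠ 0` belong to `S`);
* the points of `S` in `W` whose first coordinate is a natural number are dense in `W`, and the set of
  these natural numbers does not have density zero;
* for no `g` the fibre of `W` over the points `g = 0` of the line of the first coordinate fails to be
  pseudo-split. -/
def PseudoSplitComponent {K : Type} [Field K] [NumberField K] {n : ℕ}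
    (S : Set (Fin (n + 1) → K)) : Prop :=
  ∃ (P : Ideal (MvPolynomial (Fin (n + 1)) K)) (_ : P.IsPrime),
    (∀ (E : Set (MvPolynomial (Fin (n + 1)) K)) (e : MvPolynomial (Fin (n + 1)) K),
      S = {x | (∀ f ∈ E, MvPolynomial.eval x f = 0) ∧ MvPolynomial.eval x e ≠ 0} →
        (∀ f ∈ E, f ∈ P) ∧ e ∉ P) ∧
    (∀ f, (∀ x ∈ S, (∃ a : ℕ, x 0 = (a : K)) →
      (∀ g ∈ P, MvPolynomial.eval x g = 0) → MvPolynomial.eval x f = 0) → f ∈ P) ∧
    ¬ Null {a : ℕ | ∃ x ∈ S, (∀ f ∈ P, MvPolynomial.eval x f = 0) ∧ x 0 = (a : K)} ∧
    ∀ g : K[X], ¬ NonPseudoSplitFibre P g

theorem pseudoSplit_of_max {K : Type} [Field K] [NumberField K] {n : ℕ}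
    {S : Set (Fin (n + 1) → K)} {P : Ideal (MvPolynomial (Fin (n + 1)) K)} (hP : MaxN S P) :
    PseudoSplitComponent S := by
  refine ⟨P, hP.isPrime, ?_, fun f hf => hP.dense f hf, hP.not_null, fun g => no_nonsplit hP g⟩
  intro E e hS
  refine ⟨fun f hf => hP.dense f fun x hx _ _ => ?_, fun he => hP.not_null (Null.of_finite ?_)⟩
  · rw [hS] at hx
    exact hx.1 f hf
  · convert Set.finite_empty
    refine Set.eq_empty_of_forall_notMem ?_
    rintro a ⟨x, hx, hx', -⟩
    rw [hS] at hx
    exact hx.2 (hx' e he)

/-- (1) Let the pole relation, for one `b`, be a finite union of sets `A i` over which families with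
fibres that are not pseudo-split have points and of projections of sets `S i`. Then one of the sets `S i`
has a component with pseudo-split fibres over the affine line of the first coordinate.

(2) For example the conic bundles `x ^ 2 - m (a) y ^ 2 = g (a) z ^ 2` over `ℚ`, where `g` has a simple
rational zero `c` such that `m (c)` is not a square, are families of this kind. So finitely many of
them do not define the pole relation. -/
theorem result :
    (∀ (K : Type) [Field K] [NumberField K] (Q : Set ℕ) (b : K) (k : ℕ) (A : Fin k → Set K)
      (m : ℕ) (n : Fin m → ℕ) (S : ∀ i, Set (Fin (n i + 1) → K)),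
      (∀ i, InNonSplitFamily (A i)) →
      (∀ a : K, ((∃ i, a ∈ A i) ∨ ∃ i, ∃ x ∈ S i, x 0 = a) ↔ PoleRel K Q a b) →
        ∃ i, PseudoSplitComponent (S i)) ∧
    ∀ (m g : ℚ[X]) (c : ℚ), (¬ ∃ t : ℚ, t ^ 2 = m.eval c) → g.eval c = 0 →
      (derivative g).eval c ≠ 0 →
        InNonSplitFamily {a : ℚ | ∃ x y z : ℚ, (x ≠ 0 ∨ y ≠ 0 ∨ z ≠ 0) ∧
          x ^ 2 - m.eval a * y ^ 2 = g.eval a * z ^ 2} := by
  refine ⟨?_, fun m g c hm hg hg' => conic m g c hm hg hg'⟩
  intro K _ _ Q b k A m n S hA h
  by_contra hcon
  push Not at hcon
  have h1 : ∀ i, Null {a : ℕ | ∃ x ∈ S i, x 0 = (a : K)} := by
    intro i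
    by_contra hnull
    obtain ⟨P, hP⟩ := exists_maxN _ hnull
    exact hcon i (pseudoSplit_of_max hP)
  refine not_null_univ (((Null.biUnion (Set.finite_univ (α := Fin k)) fun i _ => (hA i).null).union
    (Null.biUnion (Set.finite_univ (α := Fin m)) fun i _ => h1 i)).mono ?_)
  rintro a -
  have hpole : PoleRel K Q (a : K) b := by
    intro v _ hv'
    exfalso
    have h5 := val_int_le v (a : ℤ)
    rw [Int.cast_natCast] at h5
    exact absurd hv' (not_lt.2 h5)
  rcases (h a).2 hpole with ⟨i, hi⟩ | ⟨i, x, hx, hx0⟩
  · exact Or.inl (Set.mem_biUnion (Set.mem_univ i) hi)
  · exact Or.inr (Set.mem_biUnion (Set.mem_univ i) ⟨x, hx, hx0⟩)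

end Pool.Agent.Results.MP_a59382_lc.NonSplitFibres
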